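import Pool.Agent.H8.Car.Mat

set_option autoImplicit false

open Finset

namespace Pool.Agent.H8.Car

section car
variable {A : Type} [CStarAlgebra A] {n m : ℕ}

/-- canonical anticommutation relations -/
structure IsCar (a : Fin n → Fin m → A) : Prop where
  anti : ∀ i k j l, a i k * a j l = -(a j l * a i k)
  car : ∀ i k j l, a i k * star (a j l) + star (a j l) * a i k = if i = j ∧ k = l then 1 else 0
  norm_le : ∀ i k, ‖a i k‖ ≤ 1

theorem IsCar.star {a : Fin n → Fin m → A} (h : IsCar a) : IsCar fun i k => star (a i k) where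
  anti i k j l := by
    have := congrArg Star.star (h.anti j l i k)
    rw [star_mul, star_neg, star_mul] at this
    exact this
  car i k j l := by
    rw [star_star, add_comm, h.car j l i k]
    by_cases h1 : i = j ∧ k = l
    · rw [if_pos h1, if_pos ⟨h1.1.symm, h1.2.symm⟩]
    · rw [if_neg h1, if_neg fun h2 => h1 ⟨h2.1.symm, h2.2.symm⟩]
  norm_le i k := by rw [norm_star]; exact h.norm_le i k

def KK (a : Fin n → Fin m → A) (k l : Fin m) : A := ∑ i, star (a i k) * a i l

theorem ring_id {R : Type} [Ring R] (x y z w c1 c2 : R) (hyz : y * z = c1 - z * y) (hwx : w * x = c2 - x * w)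
    (hyw : y * w = -(w * y)) (hxz : x * z = -(z * x)) :
    x * y * (z * w) - z * w * (x * y) = x * c1 * w - z * c2 * y := by
  have h1 : x * y * (z * w) = x * c1 * w + z * x * (y * w) := by
    calc x * y * (z * w) = x * (y * z) * w := by noncomm_ring
      _ = x * c1 * w - (x * z) * (y * w) := by rw [hyz]; noncomm_ring
      _ = x * c1 * w + z * x * (y * w) := by rw [hxz]; noncomm_ring
  have h2 : z * w * (x * y) = z * c2 * y + z * x * (y * w) := by
    calc z * w * (x * y) = z * (w * x) * y := by noncomm_ring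
      _ = z * c2 * y - z * x * (w * y) := by rw [hwx]; noncomm_ring
      _ = z * c2 * y + z * x * (y * w) := by rw [hyw]; noncomm_ring
  rw [h1, h2]; abel

theorem KK_comm {a : Fin n → Fin m → A} (h : IsCar a) (α β k l : Fin m) :
    KK a α β * KK a k l - KK a k l * KK a α β = (if β = k then KK a α l else 0) - (if l = α then KK a k β else 0) := by
  have key : ∀ i p : Fin n, star (a i α) * a i β * (star (a p k) * a p l) - star (a p k) * a p l * (star (a i α) * a i β) =
      (if i = p then (if β = k then star (a i α) * a i l else 0) else 0) -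
      (if i = p then (if l = α then star (a i k) * a i β else 0) else 0) := by
    intro i p
    have hyz : a i β * star (a p k) = (if i = p ∧ β = k then 1 else 0) - star (a p k) * a i β := by
      rw [← h.car i β p k]; abel
    have hwx : a p l * star (a i α) = (if p = i ∧ l = α then 1 else 0) - star (a i α) * a p l := by
      rw [← h.car p l i α]; abel
    rw [ring_id _ _ _ _ _ _ hyz hwx (h.anti i β p l) (h.star.anti i α p k)]
    by_cases e1 : i = p
    · subst e1
      by_cases e2 : β = k <;> by_cases e3 : l = α <;> simp [e2, e3]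
    · have e1' : ¬ p = i := fun h => e1 h.symm
      simp [e1, e1']
  unfold KK
  rw [Finset.sum_mul_sum, Finset.sum_mul_sum]
  rw [Finset.sum_comm (s := (Finset.univ : Finset (Fin n))) (f := fun i j => star (a i k) * a i l * (star (a j α) * a j β))]
  rw [← Finset.sum_sub_distrib]
  have h1 : ∀ i : Fin n, ∑ p, star (a i α) * a i β * (star (a p k) * a p l) - ∑ p, star (a p k) * a p l * (star (a i α) * a i β) =
      (if β = k then star (a i α) * a i l else 0) - (if l = α then star (a i k) * a i β else 0) := by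
    intro i
    rw [← Finset.sum_sub_distrib, Finset.sum_congr rfl fun p _ => key i p, Finset.sum_sub_distrib]
    simp
  rw [Finset.sum_congr rfl fun i _ => h1 i, Finset.sum_sub_distrib]
  congr 1
  · split <;> simp
  · split <;> simp

theorem norm_KK_le {a : Fin n → Fin m → A} (h : IsCar a) (k l : Fin m) : ‖KK a k l‖ ≤ n := by
  unfold KK
  refine (norm_sum_le _ _).trans ?_
  calc ∑ i : Fin n, ‖star (a i k) * a i l‖ ≤ ∑ _ : Fin n, (1 : ℝ) := by
        refine Finset.sum_le_sum fun i _ => (norm_mul_le _ _).trans ?_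
        rw [norm_star]
        have h1 := h.norm_le i k
        have h2 := h.norm_le i l
        calc ‖a i k‖ * ‖a i l‖ ≤ 1 * 1 := by gcongr
          _ = 1 := one_mul 1
    _ = n := by simp

theorem KK_star (a : Fin n → Fin m → A) (k l : Fin m) : star (KK a k l) = KK a l k := by
  unfold KK
  rw [star_sum]
  refine Finset.sum_congr rfl fun i _ => ?_
  rw [star_mul, star_star]

variable [PartialOrder A] [StarOrderedRing A]

/-- the matrix -/
def SS (a : Fin n → Fin m → A) : CStarMatrix (Fin m) (Fin m) A := CStarMatrix.ofMatrix (KK a)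

theorem SS_apply (a : Fin n → Fin m → A) (k l : Fin m) : SS a k l = KK a k l := rfl

theorem SS_sa (a : Fin n → Fin m → A) : IsSelfAdjoint (SS a) := by
  change star (SS a) = SS a
  ext k l
  rw [CStarMatrix.star_apply, SS_apply, SS_apply, KK_star]

theorem spec_bound {a : Fin n → Fin m → A} (h : IsCar a) (C : Subalgebra ℂ A) [FiniteDimensional ℂ C]
    (hC : ∀ i k, a i k ∈ C) (hC' : ∀ i k, star (a i k) ∈ C) (lam : ℂ) (hlam : lam ∈ spectrum ℂ (SS a)) :
    ‖lam‖ ≤ n + m := by
  have hreal : star lam = lam := by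
    have := (SS_sa a).mem_spectrum_eq_re hlam
    rw [this]
    exact Complex.conj_ofReal _
  have hKC : ∀ k l, KK a k l ∈ C := fun k l => Subalgebra.sum_mem _ fun i _ => Subalgebra.mul_mem _ (hC' i k) (hC i l)
  let K' : Fin m → Fin m → C := fun k l => ⟨KK a k l, hKC k l⟩
  have hK' : ∀ α β k l, K' α β * K' k l - K' k l * K' α β = (if β = k then K' α l else 0) - (if l = α then K' k β else 0) := by
    intro α β k l
    apply Subtype.ext
    have := KK_comm h α β k l
    have e1 : ((if β = k then K' α l else 0 : C) : A) = if β = k then KK a α l else 0 := by split <;> rfl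
    have e2 : ((if l = α then K' k β else 0 : C) : A) = if l = α then KK a k β else 0 := by split <;> rfl
    push_cast
    rw [e1, e2]
    exact this
  have hex : ∃ v0 : Fin m → C, v0 ≠ 0 ∧ Sop K' v0 = lam • v0 := by
    by_contra hcon
    push Not at hcon
    have hinj : Function.Injective (Sop K' - lam • (1 : Module.End ℂ (Fin m → C))) := by
      rw [← LinearMap.ker_eq_bot, LinearMap.ker_eq_bot']
      intro v hv
      by_contra hne
      refine hcon v hne ?_
      have h1 : Sop K' v - lam • v = 0 := hv
      exact sub_eq_zero.1 h1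
    have hsurj := LinearMap.injective_iff_surjective.1 hinj
    choose v hv using fun j : Fin m => hsurj (Pi.single j 1)
    let Rm : CStarMatrix (Fin m) (Fin m) A := CStarMatrix.ofMatrix fun i j => ((v j i : C) : A)
    have hR : (SS a - algebraMap ℂ _ lam) * Rm = 1 := by
      ext i j
      rw [CStarMatrix.mul_apply, CStarMatrix.one_apply]
      have h1 : ((((Sop K' - lam • (1 : Module.End ℂ (Fin m → C))) (v j)) i : C) : A) =
          (((Pi.single j (1 : C) : Fin m → C) i : C) : A) := congrArg (fun z : C => (z : A)) (congrFun (hv j) i)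
      have h2 : ((((Sop K' - lam • (1 : Module.End ℂ (Fin m → C))) (v j)) i : C) : A) =
          ∑ l, KK a i l * ((v j l : C) : A) - lam • ((v j i : C) : A) := by
        change (((Sop K' (v j) - lam • v j) i : C) : A) = _
        simp [Sop, K']
      rw [h2] at h1
      have h3 : (((Pi.single j (1 : C) : Fin m → C) i : C) : A) = if i = j then 1 else 0 := by
        by_cases e : i = j
        · subst e; simp
        · rw [Pi.single_eq_of_ne e, if_neg e]; rfl
      rw [h3] at h1
      rw [← h1]
      have h4 : ∀ l, (SS a - algebraMap ℂ (CStarMatrix (Fin m) (Fin m) A) lam) i l * Rm l j =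
          KK a i l * ((v j l : C) : A) - (if i = l then lam • ((v j l : C) : A) else 0) := by
        intro l
        rw [CStarMatrix.sub_apply, CStarMatrix.algebraMap_apply, sub_mul, SS_apply]
        congr 1
        by_cases e : i = l
        · subst e
          rw [if_pos rfl, if_pos rfl, ← Algebra.smul_def]
          rfl
        · rw [if_neg e, if_neg e, zero_mul]
      rw [Finset.sum_congr rfl fun l _ => h4 l, Finset.sum_sub_distrib]
      simp
    have hL : star Rm * (SS a - algebraMap ℂ _ lam) = 1 := by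
      have h1 := congrArg Star.star hR
      rw [star_mul, star_sub, (SS_sa a).star_eq, star_one] at h1
      have h2 : star (algebraMap ℂ (CStarMatrix (Fin m) (Fin m) A) lam) = algebraMap ℂ _ lam := by
        rw [Algebra.algebraMap_eq_smul_one, star_smul, star_one, hreal]
      rw [h2] at h1
      exact h1
    have hunit : IsUnit (SS a - algebraMap ℂ (CStarMatrix (Fin m) (Fin m) A) lam) :=
      isUnit_iff_exists_and_exists.2 ⟨⟨Rm, hR⟩, ⟨star Rm, hL⟩⟩
    have h5 : IsUnit (algebraMap ℂ (CStarMatrix (Fin m) (Fin m) A) lam - SS a) := by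
      have := hunit.neg
      rwa [neg_sub] at this
    exact hlam h5
  obtain ⟨v0, hv0, hS0⟩ := hex
  obtain ⟨p, r, hr, hpr⟩ := hw hK' lam v0 hv0 hS0
  have h1 : KK a p p * (r : A) = (lam - ((m - 1 - (p : ℕ) : ℕ) : ℂ)) • (r : A) := congrArg (fun z : C => (z : A)) hpr
  have hrn : 0 < ‖(r : A)‖ := norm_pos_iff.2 fun h => hr (Subtype.ext h)
  have h2 : ‖lam - ((m - 1 - (p : ℕ) : ℕ) : ℂ)‖ * ‖(r : A)‖ ≤ n * ‖(r : A)‖ := by
    rw [← norm_smul, ← h1]
    exact (norm_mul_le _ _).trans (mul_le_mul_of_nonneg_right (norm_KK_le h p p) (norm_nonneg _))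
  have h3 := le_of_mul_le_mul_right h2 hrn
  have h4 : ‖lam‖ ≤ ‖lam - ((m - 1 - (p : ℕ) : ℕ) : ℂ)‖ + ‖((m - 1 - (p : ℕ) : ℕ) : ℂ)‖ := by
    have := norm_add_le (lam - ((m - 1 - (p : ℕ) : ℕ) : ℂ)) ((m - 1 - (p : ℕ) : ℕ) : ℂ)
    rwa [sub_add_cancel] at this
  rw [Complex.norm_natCast] at h4
  have h5 : ((m - 1 - (p : ℕ) : ℕ) : ℝ) ≤ m := by
    have : m - 1 - (p : ℕ) ≤ m := by omega
    exact_mod_cast this
  linarith

theorem norm_SS_le {a : Fin n → Fin m → A} (h : IsCar a) (C : Subalgebra ℂ A) [FiniteDimensional ℂ C]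
    (hC : ∀ i k, a i k ∈ C) (hC' : ∀ i k, star (a i k) ∈ C) : ‖SS a‖ ≤ n + m := by
  have h1 := (SS_sa a).spectralRadius_eq_nnnorm
  have h2 : spectralRadius ℂ (SS a) ≤ (((n : NNReal) + m : NNReal) : ENNReal) := by
    unfold spectralRadius
    refine iSup₂_le fun lam hlam => ?_
    have := spec_bound h C hC hC' lam hlam
    have h3 : ‖lam‖₊ ≤ (n : NNReal) + m := by
      rw [← NNReal.coe_le_coe]
      push_cast
      exact this
    exact_mod_cast h3
  rw [h1] at h2
  have h4 : ‖SS a‖₊ ≤ (n : NNReal) + m := by exact_mod_cast h2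
  rw [← NNReal.coe_le_coe] at h4
  push_cast at h4
  exact h4

/-- the column estimate -/
theorem col_bound {a : Fin n → Fin m → A} (h : IsCar a) (C : Subalgebra ℂ A) [FiniteDimensional ℂ C]
    (hC : ∀ i k, a i k ∈ C) (hC' : ∀ i k, star (a i k) ∈ C) (hm : 0 < m) (x : Fin m → A) :
    ‖∑ i, star (∑ k, a i k * x k) * (∑ k, a i k * x k)‖ ≤ (n + m) * ‖∑ k, star (x k) * x k‖ := by
  have h1 : ∑ i, star (∑ k, a i k * x k) * (∑ k, a i k * x k) = ∑ k, ∑ l, star (x k) * SS a k l * x l := by
    have e1 : ∀ k l, star (x k) * SS a k l * x l = ∑ i, star (x k) * (star (a i k) * a i l) * x l := by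
      intro k l
      rw [SS_apply, KK, Finset.mul_sum, Finset.sum_mul]
    simp_rw [e1]
    have e2 : ∀ i, star (∑ k, a i k * x k) * (∑ k, a i k * x k) = ∑ k, ∑ l, star (x k) * (star (a i k) * a i l) * x l := by
      intro i
      rw [star_sum, Finset.sum_mul_sum]
      refine Finset.sum_congr rfl fun k _ => Finset.sum_congr rfl fun l _ => ?_
      rw [star_mul]
      noncomm_ring
    simp_rw [e2]
    rw [Finset.sum_comm]
    refine Finset.sum_congr rfl fun k _ => ?_
    rw [Finset.sum_comm]
  rw [h1]
  refine (quad_le ⟨0, hm⟩ (SS a) x).trans ?_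
  exact mul_le_mul_of_nonneg_right (norm_SS_le h C hC hC') (norm_nonneg _)

end car

end Pool.Agent.H8.Car
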