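import Mathlib

set_option autoImplicit false

namespace Pool.Agent.H8.Car

section fd
variable {A : Type} [Ring A] [Algebra ℂ A]

noncomputable def Wk (g : ℕ → A) : ℕ → Submodule ℂ A
  | 0 => Submodule.span ℂ {1}
  | k + 1 => Wk g k ⊔ (Wk g k).map (LinearMap.mulRight ℂ (g k))

theorem Wk_fd (g : ℕ → A) (k : ℕ) : FiniteDimensional ℂ (Wk g k) := by
  induction k with
  | zero =>
    rw [show Wk g 0 = Submodule.span ℂ {1} from rfl]
    infer_instance
  | succ k ih =>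
    rw [show Wk g (k + 1) = Wk g k ⊔ (Wk g k).map (LinearMap.mulRight ℂ (g k)) from rfl]
    infer_instance

theorem one_mem_Wk (g : ℕ → A) (k : ℕ) : (1 : A) ∈ Wk g k := by
  induction k with
  | zero => exact Submodule.subset_span rfl
  | succ k ih => exact Submodule.mem_sup_left ih

theorem mem_Wk_succ (g : ℕ → A) (k : ℕ) (w : A) : w ∈ Wk g (k + 1) ↔ ∃ u ∈ Wk g k, ∃ v ∈ Wk g k, u + v * g k = w := by
  rw [show Wk g (k + 1) = Wk g k ⊔ (Wk g k).map (LinearMap.mulRight ℂ (g k)) from rfl, Submodule.mem_sup]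
  constructor
  · rintro ⟨u, hu, z, ⟨v, hv, rfl⟩, rfl⟩
    exact ⟨u, hu, v, hv, rfl⟩
  · rintro ⟨u, hu, v, hv, rfl⟩
    exact ⟨u, hu, v * g k, ⟨v, hv, rfl⟩, rfl⟩

theorem Wk_P (g : ℕ → A) (k : ℕ) (c : A) (hc : ∀ i < k, c * g i = -(g i * c)) :
    ∀ w ∈ Wk g k, ∃ w' ∈ Wk g k, c * w = w' * c := by
  induction k with
  | zero =>
    intro w hw
    rw [show Wk g 0 = Submodule.span ℂ {1} from rfl, Submodule.mem_span_singleton] at hw
    obtain ⟨α, rfl⟩ := hw
    exact ⟨α • 1, Submodule.smul_mem _ _ (Submodule.subset_span rfl), by simp⟩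
  | succ k ih =>
    intro w hw
    obtain ⟨u, hu, v, hv, rfl⟩ := (mem_Wk_succ g k w).1 hw
    have ih' := ih fun i hi => hc i (Nat.lt_succ_of_lt hi)
    obtain ⟨u', hu', eu⟩ := ih' u hu
    obtain ⟨v', hv', ev⟩ := ih' v hv
    refine ⟨u' + (-v') * g k, (mem_Wk_succ g k _).2 ⟨u', hu', -v', Submodule.neg_mem _ hv', rfl⟩, ?_⟩
    rw [mul_add, eu, ← mul_assoc, ev, mul_assoc, hc k (Nat.lt_succ_self k), add_mul]
    simp [mul_assoc]

theorem Wk_Q (g : ℕ → A) (hsq : ∀ i, g i * g i = 1) (hanti : ∀ i j, i ≠ j → g i * g j = -(g j * g i)) (k : ℕ) :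
    ∀ j < k, ∀ w ∈ Wk g k, g j * w ∈ Wk g k := by
  induction k with
  | zero => intro j hj; omega
  | succ k ih =>
    intro j hj w hw
    obtain ⟨u, hu, v, hv, rfl⟩ := (mem_Wk_succ g k w).1 hw
    rcases Nat.lt_succ_iff_lt_or_eq.1 hj with h | h
    · rw [mul_add, ← mul_assoc]
      exact (mem_Wk_succ g k _).2 ⟨_, ih j h u hu, _, ih j h v hv, rfl⟩
    · subst h
      obtain ⟨u', hu', eu⟩ := Wk_P g j (g j) (fun i hi => hanti j i (Nat.ne_of_gt hi)) u hu
      obtain ⟨v', hv', ev⟩ := Wk_P g j (g j) (fun i hi => hanti j i (Nat.ne_of_gt hi)) v hv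
      refine (mem_Wk_succ g j _).2 ⟨v', hv', u', hu', ?_⟩
      rw [mul_add, eu, ← mul_assoc, ev, mul_assoc, hsq, mul_one, add_comm]

theorem exists_subalgebra (g : ℕ → A) (hsq : ∀ i, g i * g i = 1) (hanti : ∀ i j, i ≠ j → g i * g j = -(g j * g i)) (N : ℕ) :
    ∃ C : Subalgebra ℂ A, FiniteDimensional ℂ C ∧ ∀ i < N, g i ∈ C := by
  refine ⟨Algebra.adjoin ℂ (g '' Set.Iio N), ?_, fun i hi => Algebra.subset_adjoin ⟨i, hi, rfl⟩⟩
  have h1 : ∀ x ∈ Algebra.adjoin ℂ (g '' Set.Iio N), ∀ w ∈ Wk g N, x * w ∈ Wk g N := by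
    intro x hx
    induction hx using Algebra.adjoin_induction with
    | mem x h =>
      obtain ⟨i, hi, rfl⟩ := h
      exact fun w hw => Wk_Q g hsq hanti N i hi w hw
    | algebraMap r =>
      intro w hw
      rw [← Algebra.smul_def]
      exact Submodule.smul_mem _ _ hw
    | add x y _ _ hx hy =>
      intro w hw
      rw [add_mul]
      exact Submodule.add_mem _ (hx w hw) (hy w hw)
    | mul x y _ _ hx hy =>
      intro w hw
      rw [mul_assoc]
      exact hx _ (hy w hw)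
  have h2 : Subalgebra.toSubmodule (Algebra.adjoin ℂ (g '' Set.Iio N)) ≤ Wk g N := by
    intro x hx
    have := h1 x hx 1 (one_mem_Wk g N)
    rwa [mul_one] at this
  have : FiniteDimensional ℂ (Wk g N) := Wk_fd g N
  exact Submodule.finiteDimensional_of_le h2

end fd

end Pool.Agent.H8.Car
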