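import Pool.Agent.H8.Car.Bound
import Pool.Agent.H8.Car.Fd

set_option autoImplicit false

open Finset

namespace Pool.Agent.H8.Car

theorem sum_split {A : Type} [AddCommMonoid A] (n : ℕ) (f : ℕ → A) (hf : ∀ j, n ≤ j → f j = 0) :
    ∑ j : Fin n, f j = ∑ k : Fin n, (f (2 * k) + f (2 * k + 1)) := by
  rw [Fin.sum_univ_eq_sum_range, Fin.sum_univ_eq_sum_range (fun k => f (2 * k) + f (2 * k + 1))]
  have h1 : ∀ N : ℕ, ∑ k ∈ range N, (f (2 * k) + f (2 * k + 1)) = ∑ j ∈ range (2 * N), f j := by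
    intro N
    induction N with
    | zero => simp
    | succ N ih =>
      rw [Finset.sum_range_succ, ih, show 2 * (N + 1) = 2 * N + 1 + 1 by ring, Finset.sum_range_succ, Finset.sum_range_succ,
        add_assoc]
  rw [h1]
  refine Finset.sum_subset (fun j hj => ?_) fun j _ hj => ?_
  · rw [Finset.mem_range] at *; omega
  · rw [Finset.mem_range] at hj
    exact hf j (by omega)

section
variable {A : Type} [CStarAlgebra A] (c : ℕ → ℕ → A)

/-- annihilation operators -/
noncomputable def an (n : ℕ) (i k : Fin n) : A := (1 / 2 : ℂ) • (c i (2 * k) + Complex.I • c i (2 * k + 1))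

variable {c} (h1 : ∀ i j, IsSelfAdjoint (c i j)) (h2 : ∀ i j, c i j * c i j = 1)
  (h3 : ∀ i j k l, (i, j) ≠ (k, l) → c i j * c k l = -(c k l * c i j))

include h2 h3 in
theorem ac (i j k l : ℕ) : c i j * c k l + c k l * c i j = if i = k ∧ j = l then 2 else 0 := by
  by_cases h : i = k ∧ j = l
  · rw [if_pos h, h.1, h.2, h2]
    norm_num
  · rw [if_neg h, h3 i j k l fun e => h ⟨congrArg Prod.fst e, congrArg Prod.snd e⟩]
    simp

include h1 in
theorem an_star (n : ℕ) (i k : Fin n) : star (an c n i k) = (1 / 2 : ℂ) • (c i (2 * k) - Complex.I • c i (2 * k + 1)) := by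
  unfold an
  rw [star_smul, star_add, star_smul, (h1 _ _).star_eq, (h1 _ _).star_eq]
  have e1 : star (1 / 2 : ℂ) = 1 / 2 := by
    rw [show (1 / 2 : ℂ) = ((1 / 2 : ℝ) : ℂ) by norm_num, Complex.star_def, Complex.conj_ofReal]
  have e2 : star Complex.I = -Complex.I := by rw [Complex.star_def, Complex.conj_I]
  rw [e1, e2, neg_smul, sub_eq_add_neg]

include h1 h2 in
theorem norm_c_le (i j : ℕ) : ‖c i j‖ ≤ 1 := by
  have h : ‖c i j‖ * ‖c i j‖ = ‖(1 : A)‖ := by
    rw [← CStarRing.norm_star_mul_self, (h1 i j).star_eq, h2]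
  have h4 : ‖(1 : A)‖ ≤ 1 := by
    rcases subsingleton_or_nontrivial A with hs | hs
    · rw [Subsingleton.elim (1 : A) 0, norm_zero]; norm_num
    · rw [CStarRing.norm_one]
  nlinarith [norm_nonneg (c i j)]

include h1 h2 h3 in
theorem an_car (n : ℕ) : IsCar (an c n) := by
  have hI : Complex.I * Complex.I = -1 := Complex.I_mul_I
  refine ⟨?_, ?_, ?_⟩
  · intro i k j l
    rw [eq_neg_iff_add_eq_zero]
    have e : an c n i k * an c n j l + an c n j l * an c n i k = (1 / 4 : ℂ) •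
        ((c i (2 * k) * c j (2 * l) + c j (2 * l) * c i (2 * k)) - (c i (2 * k + 1) * c j (2 * l + 1) + c j (2 * l + 1) * c i (2 * k + 1))
          + Complex.I • (c i (2 * k) * c j (2 * l + 1) + c j (2 * l + 1) * c i (2 * k)) +
          Complex.I • (c i (2 * k + 1) * c j (2 * l) + c j (2 * l) * c i (2 * k + 1))) := by
      unfold an
      simp only [smul_mul_smul_comm, mul_add, add_mul, smul_add, smul_sub, smul_smul, mul_smul_comm, smul_mul_assoc, mul_assoc, hI]
      match_scalars <;> ring_nf <;> (try simp only [Complex.I_sq]) <;> (try ring_nf)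
    rw [e, ac h2 h3, ac h2 h3, ac h2 h3, ac h2 h3]
    have e1 : ((i : ℕ) = j ∧ 2 * (k : ℕ) = 2 * l) ↔ ((i : ℕ) = j ∧ 2 * (k : ℕ) + 1 = 2 * l + 1) := by
      constructor <;> rintro ⟨a, b⟩ <;> exact ⟨a, by omega⟩
    have e2 : ¬ ((i : ℕ) = j ∧ 2 * (k : ℕ) = 2 * l + 1) := by rintro ⟨_, b⟩; omega
    have e3 : ¬ ((i : ℕ) = j ∧ 2 * (k : ℕ) + 1 = 2 * l) := by rintro ⟨_, b⟩; omega
    rw [if_neg e2, if_neg e3]
    simp only [e1]
    simp
  · intro i k j l
    have e : an c n i k * star (an c n j l) + star (an c n j l) * an c n i k = (1 / 4 : ℂ) •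
        ((c i (2 * k) * c j (2 * l) + c j (2 * l) * c i (2 * k)) + (c i (2 * k + 1) * c j (2 * l + 1) + c j (2 * l + 1) * c i (2 * k + 1))
          - Complex.I • (c i (2 * k) * c j (2 * l + 1) + c j (2 * l + 1) * c i (2 * k)) +
          Complex.I • (c i (2 * k + 1) * c j (2 * l) + c j (2 * l) * c i (2 * k + 1))) := by
      rw [an_star h1]
      unfold an
      simp only [smul_mul_smul_comm, mul_add, add_mul, mul_sub, sub_mul, smul_add, smul_sub, smul_smul, mul_smul_comm, smul_mul_assoc, mul_assoc, hI]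
      match_scalars <;> ring_nf <;> (try simp only [Complex.I_sq]) <;> (try ring_nf)
    rw [e, ac h2 h3, ac h2 h3, ac h2 h3, ac h2 h3]
    have e2 : ¬ ((i : ℕ) = j ∧ 2 * (k : ℕ) = 2 * l + 1) := by rintro ⟨_, b⟩; omega
    have e3 : ¬ ((i : ℕ) = j ∧ 2 * (k : ℕ) + 1 = 2 * l) := by rintro ⟨_, b⟩; omega
    rw [if_neg e2, if_neg e3]
    by_cases h : i = j ∧ k = l
    · obtain ⟨rfl, rfl⟩ := h
      simp only [and_self, if_true]
      rw [smul_zero, sub_zero, add_zero]
      have : (2 : A) + 2 = (4 : ℂ) • (1 : A) := by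
        rw [show (4 : ℂ) = ((4 : ℕ) : ℂ) by norm_num, Nat.cast_smul_eq_nsmul, nsmul_eq_mul]; norm_num
      rw [this, smul_smul]; norm_num
    · have e4 : ¬ ((i : ℕ) = j ∧ 2 * (k : ℕ) = 2 * l) := by
        rintro ⟨a, b⟩; exact h ⟨Fin.ext a, Fin.ext (by omega)⟩
      have e5 : ¬ ((i : ℕ) = j ∧ 2 * (k : ℕ) + 1 = 2 * l + 1) := by
        rintro ⟨a, b⟩; exact h ⟨Fin.ext a, Fin.ext (by omega)⟩
      rw [if_neg e4, if_neg e5, if_neg h]
      simp
  · intro i k
    unfold an
    have n1 := norm_c_le h1 h2 i (2 * k)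
    have n2 := norm_c_le h1 h2 i (2 * k + 1)
    rw [norm_smul]
    have n3 : ‖c i (2 * k) + Complex.I • c i (2 * k + 1)‖ ≤ 2 := by
      refine (norm_add_le _ _).trans ?_
      rw [norm_smul, Complex.norm_I, one_mul]
      linarith
    have n4 : ‖(1 / 2 : ℂ)‖ = 1 / 2 := by norm_num
    rw [n4]
    linarith

include h1 h2 h3 in
theorem exists_C (n : ℕ) : ∃ C : Subalgebra ℂ A, FiniteDimensional ℂ C ∧ (∀ i k : Fin n, an c n i k ∈ C) ∧
    ∀ i k : Fin n, star (an c n i k) ∈ C := by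
  obtain ⟨C, hC1, hC2⟩ := exists_subalgebra (fun t => c (Nat.unpair t).1 (Nat.unpair t).2) (fun i => h2 _ _)
    (fun i j hij => h3 _ _ _ _ fun e => hij (by
      have := congrArg (fun p : ℕ × ℕ => Nat.pair p.1 p.2) e
      simpa using this)) (Nat.pair n (2 * n) + 1)
  have hc : ∀ i j : ℕ, i < n → j < 2 * n → c i j ∈ C := by
    intro i j hi hj
    have e1 : Nat.pair i j < Nat.pair n (2 * n) + 1 := by
      have := Nat.pair_lt_pair_left j hi
      have := Nat.pair_lt_pair_right n hj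
      omega
    have := hC2 _ e1
    simpa using this
  refine ⟨C, hC1, fun i k => ?_, fun i k => ?_⟩
  · unfold an
    exact C.smul_mem (C.add_mem (hc _ _ i.2 (by omega)) (C.smul_mem (hc _ _ i.2 (by omega)) _)) _
  · rw [an_star h1]
    exact C.smul_mem (C.sub_mem (hc _ _ i.2 (by omega)) (C.smul_mem (hc _ _ i.2 (by omega)) _)) _

variable [PartialOrder A] [StarOrderedRing A]

include h1 h2 h3 in
theorem main (n : ℕ) (x b : Fin n → A) :
    ‖∑ i : Fin n, ∑ j : Fin n, star (b i) * c (i : ℕ) (j : ℕ) * x j‖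
      ≤ 6 * Real.sqrt (n : ℝ) * Real.sqrt ‖∑ j : Fin n, star (x j) * x j‖ * Real.sqrt ‖∑ i : Fin n, star (b i) * b i‖ := by
  rcases Nat.eq_zero_or_pos n with hn | hn
  · subst hn; simp
  obtain ⟨C, hC1, hC2, hC3⟩ := exists_C h1 h2 h3 n
  have hcar := an_car h1 h2 h3 n
  let i₀ : Fin n := ⟨0, hn⟩
  let X : ℕ → A := fun j => if h : j < n then x ⟨j, h⟩ else 0
  let u : Fin n → A := fun k => X (2 * k)
  let w : Fin n → A := fun k => X (2 * k + 1)
  have hX : ∀ j : Fin n, X j = x j := fun j => by simp [X]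
  have hX0 : ∀ j, n ≤ j → X j = 0 := fun j hj => by simp [X, not_lt.2 hj]
  let s1 : Fin n → A := fun k => u k - Complex.I • w k
  let s2 : Fin n → A := fun k => u k + Complex.I • w k
  let P : Fin n → A := fun i => ∑ k, an c n i k * s1 k
  let Q : Fin n → A := fun i => ∑ k, star (an c n i k) * s2 k
  have hI : Complex.I * Complex.I = -1 := Complex.I_mul_I
  have hy : ∀ i : Fin n, ∑ j : Fin n, c i j * x j = P i + Q i := by
    intro i
    have e1 : ∑ j : Fin n, c i j * x j = ∑ j : Fin n, (fun j : ℕ => c i j * X j) j :=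
      Finset.sum_congr rfl fun j _ => by simp only [hX]
    have e2 := sum_split n (fun j : ℕ => c i j * X j) (fun j hj => by simp only [hX0 j hj, mul_zero])
    rw [e1]
    refine e2.trans ?_
    rw [← Finset.sum_add_distrib]
    refine Finset.sum_congr rfl fun k _ => ?_
    rw [an_star h1]
    simp only [an, s1, s2, u, w]
    simp only [mul_add, add_mul, mul_sub, sub_mul, smul_add, smul_sub, smul_smul, mul_smul_comm, smul_mul_assoc, mul_assoc, hI]
    match_scalars <;> ring_nf <;> (try simp only [Complex.I_sq]) <;> (try ring_nf)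
  have hsum : ∑ i : Fin n, ∑ j : Fin n, star (b i) * c (i : ℕ) (j : ℕ) * x j = ∑ i : Fin n, star (b i) * (P i + Q i) := by
    refine Finset.sum_congr rfl fun i _ => ?_
    rw [← hy, Finset.mul_sum]
    exact Finset.sum_congr rfl fun j _ => mul_assoc _ _ _
  rw [hsum]
  set Nx := Real.sqrt ‖∑ j : Fin n, star (x j) * x j‖ with hNx
  set Nb := Real.sqrt ‖∑ i : Fin n, star (b i) * b i‖ with hNb
  have hsplit : ∑ j : Fin n, star (x j) * x j = ∑ k : Fin n, star (u k) * u k + ∑ k : Fin n, star (w k) * w k := by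
    have e1 : ∑ j : Fin n, star (x j) * x j = ∑ j : Fin n, (fun j : ℕ => star (X j) * X j) j :=
      Finset.sum_congr rfl fun j _ => by simp only [hX]
    have e2 := sum_split n (fun j : ℕ => star (X j) * X j) (fun j hj => by simp only [hX0 j hj, mul_zero])
    rw [e1]
    refine e2.trans ?_
    rw [← Finset.sum_add_distrib]
  have hnn : ∀ z : Fin n → A, 0 ≤ ∑ k : Fin n, star (z k) * z k := fun z => Finset.sum_nonneg fun k _ => star_mul_self_nonneg _
  have hu : Real.sqrt ‖∑ k, star (u k) * u k‖ ≤ Nx := by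
    apply Real.sqrt_le_sqrt
    refine CStarAlgebra.norm_le_norm_of_nonneg_of_le (hnn u) ?_
    rw [hsplit]
    exact le_add_of_nonneg_right (hnn w)
  have hw : Real.sqrt ‖∑ k, star (w k) * w k‖ ≤ Nx := by
    apply Real.sqrt_le_sqrt
    refine CStarAlgebra.norm_le_norm_of_nonneg_of_le (hnn w) ?_
    rw [hsplit]
    exact le_add_of_nonneg_left (hnn u)
  have hIw : ∀ e : ℂ, e = Complex.I ∨ e = -Complex.I → ∑ k, star (e • w k) * (e • w k) = ∑ k, star (w k) * w k := by
    intro e he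
    refine Finset.sum_congr rfl fun k _ => ?_
    rw [star_smul, smul_mul_smul_comm]
    have : star e * e = 1 := by
      rcases he with h | h <;> rw [h] <;> simp
    rw [this, one_smul]
  have hs1 : Real.sqrt ‖∑ k, star (s1 k) * s1 k‖ ≤ 2 * Nx := by
    have := tri i₀ u (fun k => (-Complex.I) • w k)
    simp only [hIw _ (Or.inr rfl)] at this
    have e : ∀ k, u k + (-Complex.I) • w k = s1 k := fun k => by simp only [s1, neg_smul, sub_eq_add_neg]
    simp only [e] at this
    linarith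
  have hs2 : Real.sqrt ‖∑ k, star (s2 k) * s2 k‖ ≤ 2 * Nx := by
    have := tri i₀ u (fun k => Complex.I • w k)
    simp only [hIw _ (Or.inl rfl)] at this
    have e : ∀ k, u k + Complex.I • w k = s2 k := fun k => rfl
    simp only [e] at this
    linarith
  have hP : Real.sqrt ‖∑ i, star (P i) * P i‖ ≤ Real.sqrt (n + n) * (2 * Nx) := by
    have h := col_bound hcar C hC2 hC3 hn s1
    have h' := Real.sqrt_le_sqrt h
    rw [Real.sqrt_mul (by positivity)] at h'
    exact h'.trans (mul_le_mul_of_nonneg_left hs1 (Real.sqrt_nonneg _))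
  have hQ : Real.sqrt ‖∑ i, star (Q i) * Q i‖ ≤ Real.sqrt (n + n) * (2 * Nx) := by
    have h := col_bound hcar.star C hC3 (fun i k => by rw [star_star]; exact hC2 i k) hn s2
    have h' := Real.sqrt_le_sqrt h
    rw [Real.sqrt_mul (by positivity)] at h'
    exact h'.trans (mul_le_mul_of_nonneg_left hs2 (Real.sqrt_nonneg _))
  have hPQ := tri i₀ P Q
  have hcs := cs i₀ b (fun i => P i + Q i)
  refine hcs.trans ?_
  have hNx0 : 0 ≤ Nx := Real.sqrt_nonneg _
  have hNb0 : 0 ≤ Nb := Real.sqrt_nonneg _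
  have h2n : Real.sqrt ((n : ℝ) + n) ≤ 1.5 * Real.sqrt n := by
    rw [show (n : ℝ) + n = 2 * n by ring, Real.sqrt_mul (by norm_num)]
    have : Real.sqrt 2 ≤ 1.5 := by
      rw [Real.sqrt_le_left (by norm_num)]; norm_num
    exact mul_le_mul_of_nonneg_right this (Real.sqrt_nonneg _)
  have hfin : Real.sqrt ‖∑ k, star (P k + Q k) * (P k + Q k)‖ ≤ 6 * Real.sqrt n * Nx := by
    refine hPQ.trans ?_
    have : Real.sqrt ((n : ℝ) + n) * (2 * Nx) ≤ (1.5 * Real.sqrt n) * (2 * Nx) := mul_le_mul_of_nonneg_right h2n (by positivity)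
    linarith
  calc Nb * Real.sqrt ‖∑ k, star (P k + Q k) * (P k + Q k)‖ ≤ Nb * (6 * Real.sqrt n * Nx) :=
        mul_le_mul_of_nonneg_left hfin hNb0
    _ = 6 * Real.sqrt n * Nx * Nb := by ring

end

end Pool.Agent.H8.Car
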