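import Mathlib

set_option autoImplicit false

open Finset

namespace Pool.Agent.H8.Car

section hw
variable {m : ℕ} {R : Type} [Ring R] [Algebra ℂ R]

/-- the coupling operator -/
noncomputable def Sop (K : Fin m → Fin m → R) : Module.End ℂ (Fin m → R) where
  toFun v := fun k => ∑ l, K k l * v l
  map_add' v w := by
    funext k
    simp [mul_add, Finset.sum_add_distrib]
  map_smul' c v := by
    funext k
    simp [Finset.smul_sum]

/-- the total `gl` action -/
noncomputable def Dop (K : Fin m → Fin m → R) (α β : Fin m) : Module.End ℂ (Fin m → R) where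
  toFun v := fun j => K α β * v j - if j = β then v α else 0
  map_add' v w := by
    funext j
    simp only [Pi.add_apply, mul_add]
    split <;> abel
  map_smul' c v := by
    funext j
    simp only [Pi.smul_apply, RingHom.id_apply, smul_sub, mul_smul_comm]
    split <;> simp

noncomputable def kap (K : Fin m → Fin m → R) : R := ∑ j : Fin m, ((j : ℕ) : ℂ) • K j j

noncomputable def Del (K : Fin m → Fin m → R) : Module.End ℂ (Fin m → R) where
  toFun v := fun i => kap K * v i - ((i : ℕ) : ℂ) • v i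
  map_add' v w := by
    funext j
    simp only [Pi.add_apply, mul_add, smul_add]
    abel
  map_smul' c v := by
    funext j
    simp only [Pi.smul_apply, RingHom.id_apply, smul_sub, mul_smul_comm]
    rw [smul_comm]

variable {K : Fin m → Fin m → R}
  (hK : ∀ a b k l, K a b * K k l - K k l * K a b = (if b = k then K a l else 0) - (if l = a then K k b else 0))

include hK

theorem kap_comm (a b : Fin m) : kap K * K a b - K a b * kap K = (((a : ℕ) : ℂ) - ((b : ℕ) : ℂ)) • K a b := by
  unfold kap
  rw [Finset.sum_mul, Finset.mul_sum, ← Finset.sum_sub_distrib]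
  have h1 : ∀ j : Fin m, ((j : ℕ) : ℂ) • K j j * K a b - K a b * ((j : ℕ) : ℂ) • K j j =
      (if j = a then ((a : ℕ) : ℂ) • K a b else 0) - (if j = b then ((b : ℕ) : ℂ) • K a b else 0) := by
    intro j
    rw [smul_mul_assoc, mul_smul_comm, ← smul_sub, hK]
    by_cases h1 : j = a <;> by_cases h2 : j = b
    · subst h1; subst h2; simp
    · subst h1; simp [h2, Ne.symm h2]
    · subst h2; simp [h1]
    · simp [h1, h2, Ne.symm h2]
  rw [Finset.sum_congr rfl fun j _ => h1 j, Finset.sum_sub_distrib]
  simp [sub_smul]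

theorem S_D (α β : Fin m) (v : Fin m → R) : Sop K (Dop K α β v) = Dop K α β (Sop K v) := by
  funext k
  simp only [Sop, Dop, LinearMap.coe_mk, AddHom.coe_mk]
  have h1 : ∀ l : Fin m, K k l * (K α β * v l - if l = β then v α else 0) =
      K α β * (K k l * v l) - (if β = k then K α l * v l else 0) + (if l = α then K k β * v l else 0) - (if l = β then K k l * v α else 0) := by
    intro l
    have h := hK α β k l
    have h2 : K k l * K α β = K α β * K k l - ((if β = k then K α l else 0) - (if l = α then K k β else 0)) := by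
      rw [← h]; abel
    rw [mul_sub, ← mul_assoc, h2]
    by_cases e1 : β = k <;> by_cases e2 : l = α <;> by_cases e3 : l = β <;> simp [e1, e2, e3, sub_mul, add_mul, mul_assoc] <;> abel
  rw [Finset.sum_congr rfl fun l _ => h1 l, Finset.sum_sub_distrib, Finset.sum_add_distrib, Finset.sum_sub_distrib]
  rw [Finset.mul_sum]
  have e1 : ∑ l : Fin m, (if l = α then K k β * v l else 0) = K k β * v α := by simp
  have e2 : ∑ l : Fin m, (if l = β then K k l * v α else 0) = K k β * v α := by simp
  have e3 : ∑ l : Fin m, (if β = k then K α l * v l else 0) = if k = β then ∑ l, K α l * v l else 0 := by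
    by_cases h : k = β
    · simp [h]
    · simp [h, Ne.symm h]
  rw [e1, e2, e3]
  abel

theorem S_Del (v : Fin m → R) : Sop K (Del K v) = Del K (Sop K v) := by
  funext k
  simp only [Sop, Del, LinearMap.coe_mk, AddHom.coe_mk]
  have h1 : ∀ l : Fin m, K k l * (kap K * v l - ((l : ℕ) : ℂ) • v l) = kap K * (K k l * v l) - ((k : ℕ) : ℂ) • (K k l * v l) := by
    intro l
    have h := kap_comm hK k l
    have h2 : K k l * kap K = kap K * K k l - (((k : ℕ) : ℂ) - ((l : ℕ) : ℂ)) • K k l := by
      rw [← h]; abel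
    rw [mul_sub, ← mul_assoc, h2, sub_mul, mul_assoc, smul_mul_assoc, mul_smul_comm, sub_smul]
    abel
  rw [Finset.sum_congr rfl fun l _ => h1 l, Finset.sum_sub_distrib, ← Finset.mul_sum, ← Finset.smul_sum]

theorem Del_D (α β : Fin m) (v : Fin m → R) : Del K (Dop K α β v) = Dop K α β (Del K v) + (((α : ℕ) : ℂ) - ((β : ℕ) : ℂ)) • Dop K α β v := by
  funext k
  simp only [Dop, Del, LinearMap.coe_mk, AddHom.coe_mk, Pi.add_apply, Pi.smul_apply]
  have h := kap_comm hK α β
  have h2 : kap K * K α β = K α β * kap K + (((α : ℕ) : ℂ) - ((β : ℕ) : ℂ)) • K α β := by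
    rw [← h]; abel
  rw [mul_sub, mul_sub, ← mul_assoc, h2]
  by_cases e : k = β
  · subst e
    simp only [if_true, add_mul, sub_mul, smul_mul_assoc, mul_smul_comm, smul_sub, sub_smul, mul_assoc]
    abel
  · simp only [e, if_false, add_mul, sub_mul, smul_mul_assoc, mul_smul_comm, smul_sub, sub_smul, mul_assoc, mul_zero, smul_zero]
    abel

theorem hw [FiniteDimensional ℂ R] (lam : ℂ) (v0 : Fin m → R) (hv0 : v0 ≠ 0) (hS : Sop K v0 = lam • v0) :
    ∃ p : Fin m, ∃ r : R, r ≠ 0 ∧ K p p * r = (lam - ((m - 1 - (p : ℕ) : ℕ) : ℂ)) • r := by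
  classical
  set E := Module.End.eigenspace (Sop K) lam with hE
  have hmemE : ∀ v, v ∈ E ↔ Sop K v = lam • v := fun v => Module.End.mem_eigenspace_iff
  have hDelE : ∀ v ∈ E, Del K v ∈ E := by
    intro v hv
    rw [hmemE] at hv ⊢
    rw [S_Del hK, hv, map_smul]
  have hDE : ∀ α β, ∀ v ∈ E, Dop K α β v ∈ E := by
    intro α β v hv
    rw [hmemE] at hv ⊢
    rw [S_D hK, hv, map_smul]
  let T : Module.End ℂ E := (Del K).restrict hDelE
  have hnt : Nontrivial E := ⟨⟨⟨v0, (hmemE v0).2 hS⟩, 0, fun h => hv0 (congrArg Subtype.val h)⟩⟩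
  obtain ⟨θ0, hθ0⟩ := Module.End.exists_eigenvalue T
  have hfin : {θ : ℂ | T.HasEigenvalue θ}.Finite := Module.End.finite_hasEigenvalue T
  obtain ⟨θ, hθ, hmin⟩ := Set.exists_min_image _ (fun z : ℂ => z.re) hfin ⟨θ0, hθ0⟩
  obtain ⟨⟨v, hvE⟩, hv⟩ := hθ.exists_hasEigenvector
  have hvne : v ≠ 0 := fun h => hv.2 (Subtype.ext h)
  have hDv : Del K v = θ • v := congrArg Subtype.val (Module.End.mem_eigenspace_iff.1 hv.1)
  have hkill : ∀ α β : Fin m, α < β → Dop K α β v = 0 := by
    intro α β hαβ
    by_contra hne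
    have h1 : Del K (Dop K α β v) = (θ + (((α : ℕ) : ℂ) - ((β : ℕ) : ℂ))) • Dop K α β v := by
      rw [Del_D hK, hDv, map_smul, add_smul]
    have h2 : T.HasEigenvalue (θ + (((α : ℕ) : ℂ) - ((β : ℕ) : ℂ))) := by
      refine Module.End.hasEigenvalue_of_hasEigenvector (x := ⟨Dop K α β v, hDE α β v hvE⟩) ⟨?_, fun h => hne (congrArg Subtype.val h)⟩
      rw [Module.End.mem_eigenspace_iff]
      exact Subtype.ext h1
    have h3 := hmin _ h2
    simp at h3
    exact absurd h3 (not_le.2 hαβ)
  have hex : ∃ t : ℕ, ∃ h : t < m, v ⟨t, h⟩ ≠ 0 := by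
    by_contra hcon
    push Not at hcon
    exact hvne (funext fun i => hcon i i.2)
  let t := Nat.find hex
  obtain ⟨htm, hvt⟩ := Nat.find_spec hex
  have hlt : ∀ l : Fin m, (l : ℕ) < t → v l = 0 := by
    intro l hl
    by_contra hne
    exact Nat.find_min hex hl ⟨l.2, hne⟩
  refine ⟨⟨t, htm⟩, v ⟨t, htm⟩, hvt, ?_⟩
  set p : Fin m := ⟨t, htm⟩ with hp
  have hSv : Sop K v = lam • v := (hmemE v).1 hvE
  have h1 : ∑ l, K p l * v l = lam • v p := congrFun hSv p
  have h2 : ∀ l : Fin m, K p l * v l = (if l = p then K p p * v p else 0) + (if p < l then v p else 0) := by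
    intro l
    rcases lt_trichotomy l p with h | h | h
    · have : v l = 0 := hlt l h
      rw [this, mul_zero, if_neg h.ne, if_neg (not_lt.2 h.le), add_zero]
    · subst h
      simp
    · have h3 := congrFun (hkill p l h) l
      simp only [Dop, LinearMap.coe_mk, AddHom.coe_mk, if_true, Pi.zero_apply] at h3
      rw [if_neg h.ne', if_pos h, zero_add]
      exact sub_eq_zero.1 h3
  rw [Finset.sum_congr rfl fun l _ => h2 l, Finset.sum_add_distrib, Finset.sum_ite_eq' Finset.univ p, if_pos (Finset.mem_univ _),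
    ← Finset.sum_filter, Finset.sum_const] at h1
  have h4 : (Finset.univ.filter fun l : Fin m => p < l).card = m - 1 - t := by
    have : (Finset.univ.filter fun l : Fin m => p < l) = Finset.Ioi p := by ext; simp
    rw [this, Fin.card_Ioi]
  rw [h4] at h1
  rw [sub_smul, ← h1]
  have h5 : ((m - 1 - (p : ℕ) : ℕ) : ℂ) • v p = (m - 1 - t) • v p := by
    rw [Nat.cast_smul_eq_nsmul]
  rw [h5]
  abel

end hw

end Pool.Agent.H8.Car
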