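import Pool.Agent.H8.Car.Hw

set_option autoImplicit false

open Finset

namespace Pool.Agent.H8.Car

section mat
variable {A : Type} [CStarAlgebra A] [PartialOrder A] [StarOrderedRing A]
variable {ι : Type} [Fintype ι] [DecidableEq ι]

/-- single entry -/
def ee (i₀ : ι) (a : A) : CStarMatrix ι ι A := CStarMatrix.ofMatrix fun i j => if i = i₀ ∧ j = i₀ then a else 0

/-- single column -/
def col (i₀ : ι) (x : ι → A) : CStarMatrix ι ι A := CStarMatrix.ofMatrix fun i j => if j = i₀ then x i else 0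

theorem ee_apply (i₀ : ι) (a : A) (i j : ι) : ee i₀ a i j = if i = i₀ ∧ j = i₀ then a else 0 := rfl

theorem col_apply (i₀ : ι) (x : ι → A) (i j : ι) : col i₀ x i j = if j = i₀ then x i else 0 := rfl

theorem col_star_mul (i₀ : ι) (S : CStarMatrix ι ι A) (x y : ι → A) :
    star (col i₀ x) * S * col i₀ y = ee i₀ (∑ k, ∑ l, star (x k) * S k l * y l) := by
  ext i j
  rw [CStarMatrix.mul_apply]
  simp only [CStarMatrix.mul_apply, CStarMatrix.star_apply, col_apply, ee_apply]
  by_cases hj : j = i₀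
  · by_cases hi : i = i₀
    · simp only [hi, hj, if_true, and_self]
      rw [Finset.sum_comm]
      refine Finset.sum_congr rfl fun l _ => ?_
      rw [Finset.sum_mul]
    · simp [hi]
  · simp [hj]

theorem col_star_mul' (i₀ : ι) (x y : ι → A) :
    star (col i₀ x) * col i₀ y = ee i₀ (∑ k, star (x k) * y k) := by
  have h := col_star_mul i₀ 1 x y
  rw [mul_one] at h
  rw [h]
  congr 1
  refine Finset.sum_congr rfl fun k _ => ?_
  simp [CStarMatrix.one_apply]

/-- `ee` as a star homomorphism -/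
def eeHom (i₀ : ι) : A →⋆ₙₐ[ℂ] CStarMatrix ι ι A where
  toFun := ee i₀
  map_smul' c a := by
    ext i j
    simp only [ee_apply, CStarMatrix.smul_apply, MonoidHom.id_apply]
    split <;> simp
  map_zero' := by
    ext i j
    simp [ee_apply, CStarMatrix.zero_apply]
  map_add' a b := by
    ext i j
    simp only [ee_apply, CStarMatrix.add_apply]
    split <;> simp
  map_mul' a b := by
    ext i j
    rw [CStarMatrix.mul_apply]
    simp only [ee_apply]
    by_cases hi : i = i₀ <;> by_cases hj : j = i₀ <;> simp [hi, hj]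
  map_star' a := by
    ext i j
    rw [CStarMatrix.star_apply]
    simp only [ee_apply]
    by_cases hi : i = i₀ <;> by_cases hj : j = i₀ <;> simp [hi, hj]

theorem norm_ee_le (i₀ : ι) (a : A) : ‖ee i₀ a‖ ≤ ‖a‖ := NonUnitalStarAlgHom.norm_apply_le (eeHom i₀) a

theorem norm_le_ee (i₀ : ι) (a : A) : ‖a‖ ≤ ‖ee i₀ a‖ := by
  have := CStarMatrix.norm_entry_le_norm (M := ee i₀ a) (i := i₀) (j := i₀)
  simpa [ee_apply] using this

theorem norm_ee (i₀ : ι) (a : A) : ‖ee i₀ a‖ = ‖a‖ := le_antisymm (norm_ee_le i₀ a) (norm_le_ee i₀ a)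

/-- squared norm of a column -/
theorem norm_col_sq (i₀ : ι) (x : ι → A) : ‖col i₀ x‖ ^ 2 = ‖∑ k, star (x k) * x k‖ := by
  rw [sq, ← CStarRing.norm_star_mul_self, col_star_mul', norm_ee]

theorem norm_col (i₀ : ι) (x : ι → A) : ‖col i₀ x‖ = √‖∑ k, star (x k) * x k‖ := by
  rw [← norm_col_sq i₀, Real.sqrt_sq (norm_nonneg _)]

theorem cs (i₀ : ι) (x y : ι → A) : ‖∑ k, star (x k) * y k‖ ≤ √‖∑ k, star (x k) * x k‖ * √‖∑ k, star (y k) * y k‖ := by
  rw [← norm_ee i₀, ← col_star_mul', ← norm_col i₀, ← norm_col i₀]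
  refine (norm_mul_le _ _).trans ?_
  rw [norm_star]

theorem quad_le (i₀ : ι) (S : CStarMatrix ι ι A) (x : ι → A) :
    ‖∑ k, ∑ l, star (x k) * S k l * x l‖ ≤ ‖S‖ * ‖∑ k, star (x k) * x k‖ := by
  rw [← norm_ee i₀, ← col_star_mul, ← norm_col_sq i₀]
  refine (norm_mul_le _ _).trans ?_
  refine (mul_le_mul_of_nonneg_right (norm_mul_le _ _) (norm_nonneg _)).trans ?_
  rw [norm_star]
  apply le_of_eq; ring

theorem col_add (i₀ : ι) (x y : ι → A) : col i₀ (x + y) = col i₀ x + col i₀ y := by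
  ext i j
  simp only [col_apply, CStarMatrix.add_apply, Pi.add_apply]
  split <;> simp

theorem tri (i₀ : ι) (x y : ι → A) : √‖∑ k, star (x k + y k) * (x k + y k)‖ ≤
    √‖∑ k, star (x k) * x k‖ + √‖∑ k, star (y k) * y k‖ := by
  have h := norm_add_le (col i₀ x) (col i₀ y)
  rw [← col_add, norm_col, norm_col, norm_col] at h
  exact h

end mat

end Pool.Agent.H8.Car
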